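import Pool.Agent.Lib.MP_688fd0_co.ASY.TB.Iface

/-!
Modules MEET and GAIN (helper28).
-/

set_option autoImplicit false

namespace Pool.Agent.Lib.MP_688fd0_co.ASY.H28

open Classical
open Pool.Agent.Lib.MP_688fd0_co.LP (IsP Conn Cyc Symm cay)
open Pool.Agent.Lib.MP_688fd0_co.LIN
open Pool.Agent.Lib.MP_688fd0_co.ASY.H85 (Ladder Mid JoinStatement)

universe u

theorem meet : MeetStatement.{u} := by
  intro V _ G H r w D γ hO hCF q M P L S R W T hT hP hD l hl hs v hv hm
  by_contra hcon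
  push Not at hcon
  have hsub : cyc H v ⊆ sl G γ w D P (P + (M + 1) * L) := by
    intro u hu
    have hu' : H.Reachable v u := by
      unfold cyc at hu
      exact (Finset.mem_filter.1 hu).2
    unfold sl
    rw [Finset.mem_filter]
    by_cases h1 : Mid S R 0 M u
    · exact ⟨(hT.posR u h1).1, (hT.posR u h1).2.1, (hT.posR u h1).2.2⟩
    · by_cases h2 : u ∈ S 0
      · obtain ⟨a1, a2, a3⟩ := hT.posS 0 (Nat.zero_le _) u h2
        refine ⟨a1, by nlinarith, ?_⟩
        have : (0 + 1) * L ≤ (M + 1) * L := Nat.mul_le_mul_right _ (by omega)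
        omega
      · obtain ⟨a1, a2, a3⟩ := hT.posS M le_rfl u (hcon u hu' h1 h2)
        exact ⟨a1, by omega, by omega⟩
  have h1 := Finset.card_le_card hsub
  have h2 := hl v hv
  omega

/-- intermediate heights along a path that leaves the inside of the ladder -/
lemma ivt {V : Type u} [Fintype V] (G : SimpleGraph V) (w D : ℕ) (γ : ℕ → V) (q M P L : ℕ) (S R W : ℕ → Finset V)
    (T : ℕ → V → List V) (hG : G.Connected) (hw : 1 ≤ w) (hT : TLad G γ w D q M P L S R W T) (t : ℕ) (ht : P + L ≤ t) :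
    ∀ (l : List V) (a : V), (a :: l).IsChain G.Adj → Mid S R 0 M a → (∃ v ∈ l, ¬ Mid S R 0 M v) →
      (∀ v ∈ l, v ∉ S M) → t ≤ G.dist (γ 0) a → ∃ v ∈ a :: l, Mid S R 0 M v ∧ G.dist (γ 0) v = t := by
  intro l
  induction l with
  | nil =>
    rintro a _ _ ⟨v, hv, _⟩ _ _
    simp at hv
  | cons b l ih =>
    intro a hc ha hex hS hta
    by_cases h0 : G.dist (γ 0) a = t
    · exact ⟨a, by simp, ha, h0⟩
    have hlt : t + 1 ≤ G.dist (γ 0) a := by omega
    rw [List.isChain_cons_cons] at hc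
    have hab : G.dist (γ 0) a ≤ G.dist (γ 0) b + 1 := by
      have := hG.dist_triangle (u := γ 0) (v := b) (w := a)
      have h1 : G.dist b a = 1 := SimpleGraph.dist_eq_one_iff_adj.2 hc.1.symm
      omega
    by_cases hb : Mid S R 0 M b
    · obtain ⟨v, hv, hv2⟩ := ih b hc.2 hb (by
        obtain ⟨v, hv, hv2⟩ := hex
        rcases List.mem_cons.1 hv with h | h
        · exact absurd (h ▸ hb) hv2
        · exact ⟨v, h, hv2⟩) (fun v hv => hS v (List.mem_cons_of_mem _ hv)) (by omega)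
      exact ⟨v, List.mem_cons_of_mem _ hv, hv2⟩
    · exfalso
      rcases hT.closed a ha b hc.1 with h | h | h
      · exact hb h
      · obtain ⟨a1, a2, a3⟩ := hT.posS 0 (Nat.zero_le _) b h
        simp at a3
        omega
      · exact hS b (by simp) h

theorem gain : GainStatement.{u} := by
  intro V _ G r w D γ hO q M P L S R W T hT hP hD hM cy hcy hex hv1 hSM Y hY
  obtain ⟨v1, hv1c, hv1S⟩ := hv1
  obtain ⟨v2, hv2c, hv2⟩ := hex
  have hw : 1 ≤ w := by rw [hO.w_eq]; omega
  have hmid : Mid S R 0 M v1 := Or.inr ⟨M - 1, by omega, by omega, hv1S⟩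
  have hne : v2 ≠ v1 := fun h => hv2 (h ▸ hmid)
  obtain ⟨a1, a2, a3⟩ := hT.posS (M - 1) (by omega) v1 hv1S
  have hchain : cy.IsChain G.Adj := hcy.1.2.1
  obtain ⟨l1, l2, hl⟩ := List.append_of_mem hv1c
  have key : ∀ t, P + L ≤ t → t ≤ G.dist (γ 0) v1 → ∃ v ∈ cy, Mid S R 0 M v ∧ G.dist (γ 0) v = t := by
    intro t ht1 ht2
    rw [hl] at hv2c hchain
    rcases List.mem_append.1 hv2c with h | h
    · -- before
      have hc : (v1 :: l1.reverse).IsChain G.Adj := by
        have h1 : (l1 ++ [v1]).IsChain G.Adj := by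
          have h2 : l1 ++ v1 :: l2 = (l1 ++ [v1]) ++ l2 := by simp
          rw [h2] at hchain
          exact hchain.left_of_append
        have h3 : v1 :: l1.reverse = (l1 ++ [v1]).reverse := by simp
        rw [h3, List.isChain_reverse]
        exact h1.imp (fun a b hab => hab.symm)
      obtain ⟨v, hv, hv3⟩ := ivt G w D γ q M P L S R W T hO.vt.conn hw hT t ht1 l1.reverse v1 hc hmid
        ⟨v2, by simpa using h, hv2⟩ (fun v hv => hSM v (by rw [hl]; simp at hv; simp [hv])) ht2
      refine ⟨v, ?_, hv3⟩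
      rw [hl]
      simp at hv ⊢
      tauto
    · have hc : (v1 :: l2).IsChain G.Adj := hchain.right_of_append
      have h' : v2 ∈ l2 := by
        rcases List.mem_cons.1 h with h | h
        · exact absurd h hne
        · exact h
      obtain ⟨v, hv, hv3⟩ := ivt G w D γ q M P L S R W T hO.vt.conn hw hT t ht1 l2 v1 hc hmid
        ⟨v2, h', hv2⟩ (fun v hv => hSM v (by rw [hl]; simp [hv])) ht2
      refine ⟨v, ?_, hv3⟩
      rw [hl]
      simp at hv ⊢
      tauto
  have hsub : Finset.Icc (P + L) (P + (M - 1) * L) ⊆ (Y.filter (fun v => Mid S R 0 M v)).image (fun v => G.dist (γ 0) v) := by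
    intro t ht
    rw [Finset.mem_Icc] at ht
    obtain ⟨v, hv, hv1, hv2⟩ := key t ht.1 (by omega)
    rw [Finset.mem_image]
    exact ⟨v, Finset.mem_filter.2 ⟨hY v hv, hv1⟩, hv2⟩
  have h1 := Finset.card_le_card hsub
  have h2 := h1.trans Finset.card_image_le
  rw [Nat.card_Icc] at h2
  have h3 : (M - 2) * L + L = (M - 1) * L := by
    obtain ⟨m, rfl⟩ : ∃ m, M = m + 2 := ⟨M - 2, by omega⟩
    simp
    ring
  omega

end Pool.Agent.Lib.MP_688fd0_co.ASY.H28
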